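import Pool.Agent.H500.TH.Stm

set_option autoImplicit false
set_option linter.unusedSectionVars false

/-!
# Project TH, part A5 (helper168 for helper500): the bad vectors in the eigenspaces

With `D_z = ∑_{j < f} (m z)^(f-1-j) H^j` one has `H D_z = m z D_z` and `∑_{z^f = 1} z D_z = f m^(f-1)`.
-/

namespace Pool.Agent.H168.TH.TBad

open NumberField Matrix
open Finset (range)
open Pool.Agent.H500.TH (S_BadC S_TBad EigV)

section D
variable {ι : Type} [Fintype ι] [DecidableEq ι] {R : Type} [CommRing R]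

/-- the matrix `H` over `R` -/
def HR (R : Type) [CommRing R] (H : Matrix ι ι ℤ) : Matrix ι ι R := (Int.castRingHom R).mapMatrix H

/-- the geometric sum of `H` and `m z` -/
def DD (f m : ℕ) (H : Matrix ι ι ℤ) (z : R) : Matrix ι ι R :=
  ∑ j ∈ range f, ((m : R) * z) ^ (f - 1 - j) • HR R H ^ j

/-- an integral row over `R` -/
def cr (R : Type) [CommRing R] (w : ι → ℤ) : ι → R := fun i => (w i : R)

lemma HR_pow {f m : ℕ} {H : Matrix ι ι ℤ} (h : H ^ f = (m : ℤ) ^ f • (1 : Matrix ι ι ℤ)) :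
    HR R H ^ f = ((m : R) ^ f) • (1 : Matrix ι ι R) := by
  unfold HR
  rw [← map_pow, h]
  ext i k
  rw [RingHom.mapMatrix_apply, Matrix.map_apply, Matrix.smul_apply, Matrix.smul_apply,
    Matrix.one_apply, Matrix.one_apply]
  split_ifs <;> simp

lemma HR_mul_DD {f m : ℕ} {H : Matrix ι ι ℤ} (h : H ^ f = (m : ℤ) ^ f • (1 : Matrix ι ι ℤ)) {z : R}
    (hz : z ^ f = 1) : HR R H * DD f m H z = ((m : R) * z) • DD f m H z := by
  set c : R := (m : R) * z with hc
  have hcomm : Commute (HR R H) (algebraMap R (Matrix ι ι R) c) := (Algebra.commutes c (HR R H)).symm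
  have h1 := hcomm.mul_geom_sum₂ f
  have h2 : DD f m H z = ∑ i ∈ range f, HR R H ^ i * (algebraMap R (Matrix ι ι R) c) ^ (f - 1 - i) := by
    unfold DD
    refine Finset.sum_congr rfl fun j _ => ?_
    rw [← hc, ← map_pow, ← Algebra.commutes, Algebra.smul_def]
  rw [← h2, HR_pow h, ← map_pow, hc, mul_pow, hz, mul_one] at h1
  rw [Algebra.algebraMap_eq_smul_one (R := R) ((m : R) ^ f), sub_self, sub_mul, sub_eq_zero] at h1
  rw [h1, Algebra.smul_def]

lemma DD_map {S : Type} [CommRing S] (π : R →+* S) (f m : ℕ) (H : Matrix ι ι ℤ) (z : R) :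
    (DD f m H z).map π = DD f m H (π z) := by
  have h : π.mapMatrix (HR R H) = HR S H := by
    ext i k
    simp [HR]
  show π.mapMatrix (DD f m H z) = _
  unfold DD
  rw [map_sum]
  refine Finset.sum_congr rfl fun j _ => ?_
  have h2 : π.mapMatrix (HR R H ^ j) = HR S H ^ j := by rw [map_pow, h]
  rw [Algebra.smul_def, map_mul, h2, Algebra.smul_def]
  congr 1
  ext i k
  rw [RingHom.mapMatrix_apply, Matrix.map_apply, Matrix.algebraMap_matrix_apply,
    Matrix.algebraMap_matrix_apply]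
  split_ifs <;> simp

lemma eig_pow {H : Matrix ι ι R} {x : ι → R} {c : R} (h : H *ᵥ x = c • x) (j : ℕ) :
    (H ^ j) *ᵥ x = c ^ j • x := by
  induction j with
  | zero => simp
  | succ j ih => rw [pow_succ', ← Matrix.mulVec_mulVec, ih, Matrix.mulVec_smul, h, smul_smul, pow_succ]

lemma DD_eig {f m : ℕ} {H : Matrix ι ι ℤ} {z : R} {x : ι → R}
    (h : HR R H *ᵥ x = ((m : R) * z) • x) :
    DD f m H z *ᵥ x = ((f : R) * ((m : R) * z) ^ (f - 1)) • x := by
  unfold DD
  rw [Matrix.sum_mulVec]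
  have : ∀ j ∈ range f, (((m : R) * z) ^ (f - 1 - j) • HR R H ^ j) *ᵥ x =
      ((m : R) * z) ^ (f - 1) • x := by
    intro j hj
    have hj' := Finset.mem_range.1 hj
    rw [Matrix.smul_mulVec, eig_pow h, smul_smul, ← pow_add]
    congr 2
    omega
  rw [Finset.sum_congr rfl this, Finset.sum_const, Finset.card_range, ← smul_assoc, nsmul_eq_mul]

variable {T : Type}

lemma row_pow {m : ℕ} {H : Matrix ι ι ℤ} {p : Equiv.Perm T} {W : T → ι → R}
    (hW : ∀ s, W s ᵥ* HR R H = (m : R) • W (p s)) (j : ℕ) (s : T) :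
    W s ᵥ* HR R H ^ j = (m : R) ^ j • W ((p ^ j) s) := by
  induction j with
  | zero => simp
  | succ j ih =>
    rw [pow_succ, ← Matrix.vecMul_vecMul, ih, Matrix.smul_vecMul, hW, smul_smul, pow_succ]
    congr 2
    rw [pow_succ', Equiv.Perm.mul_apply]

lemma row_DD {f m : ℕ} {H : Matrix ι ι ℤ} {p : Equiv.Perm T} {W : T → ι → R}
    (hW : ∀ s, W s ᵥ* HR R H = (m : R) • W (p s)) (z : R) (s : T) :
    W s ᵥ* DD f m H z = ∑ j ∈ range f, ((m : R) ^ (f - 1) * z ^ (f - 1 - j)) • W ((p ^ j) s) := by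
  unfold DD
  rw [Matrix.vecMul_sum]
  refine Finset.sum_congr rfl fun j hj => ?_
  have hj' := Finset.mem_range.1 hj
  rw [Matrix.vecMul_smul, row_pow hW, smul_smul]
  congr 1
  have : f - 1 = (f - 1 - j) + j := by omega
  conv_rhs => rw [this, pow_add]
  rw [mul_pow]
  have h2 : f - 1 - j + j - j = f - 1 - j := by omega
  rw [h2]
  ring

lemma hrow {m : ℕ} {H : Matrix ι ι ℤ} {p : Equiv.Perm T} {M : T → ι → ℤ}
    (h : ∀ s k, (m : ℤ) * M (p s) k = ∑ i, M s i * H i k) (s : T) :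
    cr R (M s) ᵥ* HR R H = (m : R) • cr R (M (p s)) := by
  funext k
  have := congrArg (fun t : ℤ => (t : R)) (h s k)
  simp only [Int.cast_mul, Int.cast_natCast, Int.cast_sum] at this
  rw [Pi.smul_apply, smul_eq_mul]
  show ∑ i, cr R (M s) i * (HR R H) i k = _
  simp only [cr, HR, RingHom.mapMatrix_apply, Matrix.map_apply, eq_intCast]
  exact this.symm

/-- the sum over all roots of unity -/
lemma sum_DD {f m : ℕ} (hf : 0 < f) (H : Matrix ι ι ℤ) {z : R} [IsDomain R] (hz : IsPrimitiveRoot z f) :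
    ∑ i ∈ range f, z ^ i • DD f m H (z ^ i) = ((f : R) * (m : R) ^ (f - 1)) • (1 : Matrix ι ι R) := by
  unfold DD
  simp only [Finset.smul_sum, smul_smul]
  rw [Finset.sum_comm]
  have hcoef : ∀ j ∈ range f, ∑ i ∈ range f, (z ^ i * ((m : R) * z ^ i) ^ (f - 1 - j)) • HR R H ^ j =
      if j = 0 then ((f : R) * (m : R) ^ (f - 1)) • (1 : Matrix ι ι R) else 0 := by
    intro j hj
    have hj' := Finset.mem_range.1 hj
    rw [← Finset.sum_smul]
    have e1 : ∀ i ∈ range f, z ^ i * ((m : R) * z ^ i) ^ (f - 1 - j) =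
        (m : R) ^ (f - 1 - j) * (z ^ (f - j)) ^ i := by
      intro i _
      have : f - j = (f - 1 - j) + 1 := by omega
      rw [this, mul_pow, ← pow_mul, ← pow_mul, add_mul, pow_add]
      ring
    rw [Finset.sum_congr rfl e1, ← Finset.mul_sum]
    split_ifs with h0
    · subst h0
      have : z ^ (f - 0) = 1 := by rw [Nat.sub_zero]; exact hz.pow_eq_one
      rw [this]
      simp
      ring_nf
    · have hne : z ^ (f - j) ≠ 1 := by
        intro h1
        have := (hz.pow_eq_one_iff_dvd _).1 h1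
        have := Nat.le_of_dvd (by omega) this
        omega
      have hg : (∑ i ∈ range f, (z ^ (f - j)) ^ i) * (z ^ (f - j) - 1) = 0 := by
        rw [geom_sum_mul, ← pow_mul, mul_comm, pow_mul, hz.pow_eq_one, one_pow, sub_self]
      have : ∑ i ∈ range f, (z ^ (f - j)) ^ i = 0 :=
        (mul_eq_zero.1 hg).resolve_right (sub_ne_zero.2 hne)
      rw [this, mul_zero, zero_smul]
  rw [Finset.sum_congr rfl hcoef, Finset.sum_ite_eq' (range f) 0, if_pos (Finset.mem_range.2 hf)]

end D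

section hom

lemma exists_cyc (g : ℕ) [NeZero g] : ∃ (C : Type) (_ : Field C) (_ : NumberField C),
    IsCyclotomicExtension {g} ℚ C := by
  have h : IsCyclotomicExtension {g} ℚ (CyclotomicField g ℚ) := CyclotomicField.isCyclotomicExtension g ℚ
  have h2 : NumberField (CyclotomicField g ℚ) := IsCyclotomicExtension.numberField {g} ℚ _
  exact ⟨CyclotomicField g ℚ, inferInstance, h2, h⟩

lemma exists_hom {C : Type} [Field C] [NumberField C] (g : ℕ) [NeZero g] [IsCyclotomicExtension {g} ℚ C]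
    {ζ : C} (hζ : IsPrimitiveRoot ζ g) {R : Type} [CommRing R] [IsDomain R] {ω : R}
    (hω : IsPrimitiveRoot ω g) : ∃ π : 𝓞 C →+* R, π hζ.toInteger = ω := by
  have hroot : Polynomial.aeval ω (minpoly ℤ hζ.integralPowerBasis.gen) = 0 := by
    rw [hζ.integralPowerBasis_gen]
    have h1 : minpoly ℤ hζ.toInteger = Polynomial.cyclotomic g ℤ := by
      rw [Polynomial.cyclotomic_eq_minpoly hζ (NeZero.pos g)]
      exact (minpoly.algebraMap_eq (RingOfIntegers.coe_injective) _).symm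
    rw [h1, Polynomial.aeval_def, Polynomial.eval₂_eq_eval_map, Polynomial.map_cyclotomic]
    exact hω.isRoot_cyclotomic (NeZero.pos g)
  refine ⟨(hζ.integralPowerBasis.lift ω hroot).toRingHom, ?_⟩
  have := hζ.integralPowerBasis.lift_gen ω hroot
  rw [hζ.integralPowerBasis_gen] at this
  exact this

lemma hom_inj {C : Type} [Field C] [NumberField C] {R : Type} [CommRing R] [IsDomain R] [CharZero R]
    (π : 𝓞 C →+* R) : Function.Injective π := by
  rw [RingHom.injective_iff_ker_eq_bot]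
  refine Ideal.eq_bot_of_comap_eq_bot (R := ℤ) ?_
  rw [eq_bot_iff]
  intro x hx
  rw [Ideal.mem_comap, RingHom.mem_ker] at hx
  have : ((x : ℤ) : R) = 0 := by simpa using hx
  simpa using this

end hom

section orbits

lemma exists_rep {T : Type} [Fintype T] (p : Equiv.Perm T) : ∃ rep : T → T,
    (∀ s, ∃ j : ℕ, (p ^ j) (rep s) = s) ∧ ∀ (s : T) (j : ℕ), rep ((p ^ j) s) = rep s := by
  classical
  refine ⟨fun s => (Quotient.mk (Equiv.Perm.SameCycle.setoid p) s).out, fun s => ?_, fun s j => ?_⟩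
  · have h : Equiv.Perm.SameCycle p (Quotient.mk (Equiv.Perm.SameCycle.setoid p) s).out s :=
      @Quotient.mk_out T (Equiv.Perm.SameCycle.setoid p) s
    exact h.exists_nat_pow_eq
  · have h : Quotient.mk (Equiv.Perm.SameCycle.setoid p) ((p ^ j) s) =
        Quotient.mk (Equiv.Perm.SameCycle.setoid p) s := by
      apply Quotient.sound
      show Equiv.Perm.SameCycle p ((p ^ j) s) s
      exact (Equiv.Perm.sameCycle_pow_left (n := j)).2 (Equiv.Perm.SameCycle.refl p s)
    show (Quotient.mk (Equiv.Perm.SameCycle.setoid p) ((p ^ j) s)).out = _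
    rw [h]

/-- representatives of the orbits whose length is divisible by `g` -/
def TG {T : Type} (p : Equiv.Perm T) (rep : T → T) (g : ℕ) : Type :=
  {s : T // rep s = s ∧ ∀ j : ℕ, (p ^ j) s = s → g ∣ j}

noncomputable instance {T : Type} [Fintype T] (p : Equiv.Perm T) (rep : T → T) (g : ℕ) :
    Fintype (TG p rep g) := by
  classical
  unfold TG
  exact Subtype.fintype _

lemma card_TG {T : Type} [Fintype T] (p : Equiv.Perm T) (rep : T → T) (g : ℕ) :
    Fintype.card (TG p rep g) ≤ Fintype.card T :=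
  Fintype.card_le_of_injective (fun s => s.1) Subtype.val_injective

/-- a sum over `T` reduced to the representatives -/
lemma sum_rep {T F : Type} [Fintype T] [Field F] {p : Equiv.Perm T} {rep : T → T}
    (h1 : ∀ s, ∃ j : ℕ, (p ^ j) (rep s) = s) (h2 : ∀ (s : T) (j : ℕ), rep ((p ^ j) s) = rep s)
    {g : ℕ} {ω : F} (hω : orderOf ω = g) (a : T → F) :
    ∃ b : TG p rep g → F, ∀ φ : T → F, (∀ s, φ (p s) = ω * φ s) →
      ∑ s, a s * φ s = ∑ s : TG p rep g, b s * φ s.1 := by
  classical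
  choose j hj using h1
  refine ⟨fun t => ∑ s with rep s = t.1, a s * ω ^ j s, fun φ hφ => ?_⟩
  have hpow : ∀ (k : ℕ) (s : T), φ ((p ^ k) s) = ω ^ k * φ s := by
    intro k
    induction k with
    | zero => intro s; simp
    | succ k ih =>
      intro s
      rw [pow_succ', Equiv.Perm.mul_apply, hφ, ih, pow_succ']
      ring
  have hrr : ∀ s, rep (rep s) = rep s := by
    intro s
    conv_rhs => rw [← hj s]
    rw [h2]
  have e1 : ∑ s, a s * φ s = ∑ t, (∑ s with rep s = t, a s * ω ^ j s) * φ t := by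
    rw [← Finset.sum_fiberwise Finset.univ rep (fun s => a s * φ s)]
    refine Finset.sum_congr rfl fun t _ => ?_
    rw [Finset.sum_mul]
    refine Finset.sum_congr rfl fun s hs => ?_
    rw [Finset.mem_filter] at hs
    have h3 := hpow (j s) (rep s)
    rw [hj s, hs.2] at h3
    rw [h3]
    ring
  rw [e1]
  have hzero : ∀ t : T, ¬ (rep t = t ∧ ∀ j : ℕ, (p ^ j) t = t → g ∣ j) →
      (∑ s with rep s = t, a s * ω ^ j s) * φ t = 0 := by
    intro t ht
    by_cases hr : rep t = t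
    · have : ∃ k : ℕ, (p ^ k) t = t ∧ ¬ g ∣ k := by
        by_contra hc
        push Not at hc
        exact ht ⟨hr, hc⟩
      obtain ⟨k, hk1, hk2⟩ := this
      have h3 := hpow k t
      rw [hk1] at h3
      have h4 : (ω ^ k - 1) * φ t = 0 := by linear_combination -h3
      have h5 : ω ^ k ≠ 1 := by
        intro h
        apply hk2
        rw [← hω]
        exact orderOf_dvd_of_pow_eq_one h
      rw [(mul_eq_zero.1 h4).resolve_left (sub_ne_zero.2 h5), mul_zero]
    · have : (Finset.univ.filter fun s => rep s = t) = ∅ := by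
        rw [Finset.filter_eq_empty_iff]
        intro s _ hs
        apply hr
        rw [← hs, hrr]
      rw [this, Finset.sum_empty, zero_mul]
  have e2 : ∑ t, (∑ s with rep s = t, a s * ω ^ j s) * φ t =
      ∑ t with (rep t = t ∧ ∀ j : ℕ, (p ^ j) t = t → g ∣ j),
        (∑ s with rep s = t, a s * ω ^ j s) * φ t := by
    symm
    apply Finset.sum_filter_of_ne
    intro t _ hne
    by_contra hc
    exact hne (hzero t hc)
  rw [e2]
  exact (Finset.sum_subtype (Finset.univ.filter fun t => (rep t = t ∧ ∀ j : ℕ, (p ^ j) t = t → g ∣ j))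
    (fun x => by simp) (fun t => (∑ s with rep s = t, a s * ω ^ j s) * φ t))

end orbits

section count

/-- counting along a linear map onto the eigenspace -/
lemma count {ι F : Type} [Fintype ι] [DecidableEq ι] [Field F] [Fintype F] (A : Matrix ι ι F)
    (E Xb : Set (ι → F)) (Yb : Set (ι → F)) (hE : ∀ x, x ∈ E ↔ ∃ y, A *ᵥ y = x) (hX : Xb ⊆ E)
    (hXY : ∀ y, A *ᵥ y ∈ Xb → y ∈ Yb) (hY : 2 * Yb.ncard ≤ Fintype.card F ^ Fintype.card ι) :
    2 * Xb.ncard ≤ E.ncard := by
  classical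
  set φ : (ι → F) →+ (ι → F) := A.mulVecLin.toAddMonoidHom with hφ
  have hφa : ∀ y, φ y = A *ᵥ y := fun y => rfl
  set k := (Finset.univ.filter fun y : ι → F => φ y = 0).card with hk
  have hk0 : 0 < k := Finset.card_pos.2 ⟨0, by simp⟩
  have hfib : ∀ x ∈ E, (Finset.univ.filter fun y : ι → F => φ y = x).card = k := by
    intro x hx
    obtain ⟨y, hy⟩ := (hE x).1 hx
    exact AddMonoidHom.card_fiber_eq_of_mem_range φ ⟨y, hy⟩ ⟨0, map_zero φ⟩
  have hpre : ∀ S : Set (ι → F), S ⊆ E →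
      (Finset.univ.filter fun y : ι → F => φ y ∈ S).card = k * S.ncard := by
    intro S hS
    rw [Set.ncard_eq_toFinset_card']
    rw [Finset.card_eq_sum_card_fiberwise (f := φ) (t := S.toFinset)
      (fun y hy => by simpa using hy)]
    rw [Finset.sum_congr rfl (g := fun _ => k), Finset.sum_const, smul_eq_mul, mul_comm]
    intro x hx
    rw [Set.mem_toFinset] at hx
    rw [← hfib x (hS hx), Finset.filter_filter]
    congr 1
    ext y
    simp only [Finset.mem_filter, Finset.mem_univ, true_and]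
    constructor
    · exact fun h => h.2
    · exact fun h => ⟨by rw [h]; exact hx, h⟩
  have h1 : k * E.ncard = Fintype.card F ^ Fintype.card ι := by
    rw [← hpre E subset_rfl, Finset.filter_true_of_mem, Finset.card_univ, Fintype.card_fun]
    intro y _
    exact (hE _).2 ⟨y, rfl⟩
  have h2 : k * Xb.ncard ≤ Yb.ncard := by
    rw [← hpre Xb hX, Set.ncard_eq_toFinset_card']
    apply Finset.card_le_card
    intro y hy
    rw [Finset.mem_filter] at hy
    rw [Set.mem_toFinset]
    exact hXY y hy.2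
  have h3 : k * (2 * Xb.ncard) ≤ k * E.ncard := by
    rw [h1]
    calc k * (2 * Xb.ncard) = 2 * (k * Xb.ncard) := by ring
      _ ≤ 2 * Yb.ncard := by omega
      _ ≤ _ := hY
  exact Nat.le_of_mul_le_mul_left h3 hk0

end count

section rel

variable {ι V T : Type} [Fintype ι] [DecidableEq ι] [Fintype V] [Fintype T]

lemma map_row {R S : Type} [CommRing R] [CommRing S] (π : R →+* S) (f m : ℕ) (H : Matrix ι ι ℤ)
    (z : R) (w : ι → ℤ) (i : ι) :
    π ((cr R w ᵥ* DD f m H z) i) = (cr S w ᵥ* DD f m H (π z)) i := by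
  have h : π ∘ cr R w = cr S w := by
    funext k
    simp [cr]
  rw [RingHom.map_vecMul, DD_map, h]

open Classical in
lemma expand {R : Type} [CommRing R] {f m : ℕ} {H : Matrix ι ι ℤ} {p : Equiv.Perm T}
    {W : T → ι → R} (hW : ∀ s, W s ᵥ* HR R H = (m : R) • W (p s)) (z : R) {τ : Type} [Fintype τ]
    (u : τ → T) (c : τ → R) (i : ι) :
    ∑ t, c t * (W (u t) ᵥ* DD f m H z) i = ∑ s, (∑ t, ∑ j ∈ range f,
      if (p ^ j) (u t) = s then c t * ((m : R) ^ (f - 1) * z ^ (f - 1 - j)) else 0) * W s i := by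
  have h1 : ∀ t, c t * (W (u t) ᵥ* DD f m H z) i = ∑ j ∈ range f,
      c t * ((m : R) ^ (f - 1) * z ^ (f - 1 - j)) * W ((p ^ j) (u t)) i := by
    intro t
    rw [row_DD hW, Finset.sum_apply, Finset.mul_sum]
    refine Finset.sum_congr rfl fun j _ => ?_
    rw [Pi.smul_apply, smul_eq_mul]
    ring
  simp only [h1, Finset.sum_mul]
  rw [Finset.sum_comm' (s := Finset.univ) (t := fun _ => Finset.univ) (t' := Finset.univ)
    (s' := fun _ => Finset.univ) (by simp)]
  refine Finset.sum_congr rfl fun t _ => ?_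
  rw [Finset.sum_comm]
  refine Finset.sum_congr rfl fun j _ => ?_
  simp only [ite_mul, zero_mul]
  rw [Finset.sum_ite_eq]
  simp

lemma indep_OO {C : Type} [Field C] [NumberField C] {Vs : Finset V} {M : V → T → ι → ℤ}
    (hind : ∀ n : V → T → ℤ, (∀ v, v ∉ Vs → n v = 0) →
      (∀ i, ∑ v, ∑ s, n v s * M v s i = 0) → n = 0)
    (n : V → T → 𝓞 C) (hn : ∀ v, v ∉ Vs → n v = 0)
    (hrel : ∀ i, ∑ v, ∑ s, n v s * ((M v s i : ℤ) : 𝓞 C) = 0) : n = 0 := by
  set B := RingOfIntegers.basis C with hB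
  have h : ∀ k, (fun v s => B.repr (n v s) k) = 0 := by
    intro k
    apply hind
    · intro v hv
      funext s
      show B.repr (n v s) k = 0
      rw [hn v hv]
      simp
    · intro i
      have := congrArg (fun x => B.repr x k) (hrel i)
      simp only [map_sum, map_zero, Finsupp.coe_finsetSum, Finset.sum_apply,
        Finsupp.coe_zero, Pi.zero_apply] at this
      refine Eq.trans ?_ this
      refine Finset.sum_congr rfl fun v _ => Finset.sum_congr rfl fun s _ => ?_
      rw [mul_comm (n v s), ← zsmul_eq_mul, map_zsmul, Finsupp.smul_apply, smul_eq_mul, mul_comm]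
  funext v s
  apply B.repr.injective
  ext k
  have := congrFun (congrFun (h k) v) s
  simpa using this

lemma indep_TG {C : Type} [Field C] [NumberField C] {Vs : Finset V} {M : V → T → ι → ℤ}
    {f m g : ℕ} (hf : 0 < f) (hm : 0 < m) (hg : 0 < g) {H : Matrix ι ι ℤ} {p : Equiv.Perm T}
    {rep : T → T} (h2 : ∀ (s : T) (j : ℕ), rep ((p ^ j) s) = rep s)
    (hpM : ∀ v s k, (m : ℤ) * M v (p s) k = ∑ i, M v s i * H i k)
    (hind : ∀ n : V → T → ℤ, (∀ v, v ∉ Vs → n v = 0) →
      (∀ i, ∑ v, ∑ s, n v s * M v s i = 0) → n = 0)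
    {z : 𝓞 C} (hz : IsPrimitiveRoot z g)
    (n : V → TG p rep g → 𝓞 C) (hn : ∀ v, v ∉ Vs → n v = 0)
    (hrel : ∀ i, ∑ v, ∑ t, n v t * (cr (𝓞 C) (M v t.1) ᵥ* DD f m H z) i = 0) : n = 0 := by
  classical
  have hW : ∀ v s, cr (𝓞 C) (M v s) ᵥ* HR (𝓞 C) H = (m : 𝓞 C) • cr (𝓞 C) (M v (p s)) :=
    fun v => hrow (hpM v)
  have hN := indep_OO (C := C) hind (fun v s => ∑ t : TG p rep g, ∑ j ∈ range f,
      if (p ^ j) t.1 = s then n v t * ((m : 𝓞 C) ^ (f - 1) * z ^ (f - 1 - j)) else 0)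
    (by
      intro v hv
      funext s
      show ∑ t : TG p rep g, ∑ j ∈ range f, (if (p ^ j) t.1 = s then
        n v t * ((m : 𝓞 C) ^ (f - 1) * z ^ (f - 1 - j)) else 0) = 0
      rw [hn v hv]
      simp)
    (by
      intro i
      refine Eq.trans ?_ (hrel i)
      refine Finset.sum_congr rfl fun v _ => ?_
      exact (expand (hW v) z (fun t : TG p rep g => t.1) (n v) i).symm)
  funext v t0
  have h3 := congrFun (congrFun hN v) t0.1
  simp only [Pi.zero_apply] at h3
  rw [Finset.sum_eq_single t0] at h3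
  · have h4 : ∀ j ∈ range f, (if (p ^ j) t0.1 = t0.1 then
        n v t0 * ((m : 𝓞 C) ^ (f - 1) * z ^ (f - 1 - j)) else 0) =
        if (p ^ j) t0.1 = t0.1 then n v t0 * ((m : 𝓞 C) ^ (f - 1) * z ^ (f - 1)) else 0 := by
      intro j hj
      have hj' := Finset.mem_range.1 hj
      split_ifs with h5
      · have h6 := t0.2.2 j h5
        have h7 : z ^ j = 1 := (hz.pow_eq_one_iff_dvd j).2 h6
        have h8 : z ^ (f - 1) = z ^ (f - 1 - j) := by
          conv_lhs => rw [show f - 1 = (f - 1 - j) + j by omega, pow_add, h7, mul_one]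
        rw [h8]
      · rfl
    rw [Finset.sum_congr rfl h4, ← Finset.sum_filter, Finset.sum_const, nsmul_eq_mul] at h3
    have h9 : (((range f).filter fun j => (p ^ j) t0.1 = t0.1).card : 𝓞 C) ≠ 0 := by
      have : 0 < ((range f).filter fun j => (p ^ j) t0.1 = t0.1).card :=
        Finset.card_pos.2 ⟨0, by simp [hf]⟩
      exact_mod_cast this.ne'
    have hz0 : z ≠ 0 := by
      rintro rfl
      have := hz.pow_eq_one
      rw [zero_pow hg.ne'] at this
      exact zero_ne_one this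
    have hm0 : (m : 𝓞 C) ≠ 0 := by exact_mod_cast hm.ne'
    have h10 := (mul_eq_zero.1 h3).resolve_left h9
    exact (mul_eq_zero.1 h10).resolve_right (mul_ne_zero (pow_ne_zero _ hm0) (pow_ne_zero _ hz0))
  · intro t _ hne
    apply Finset.sum_eq_zero
    intro j _
    rw [if_neg]
    intro h5
    apply hne
    apply Subtype.ext
    have h6 := h2 t.1 j
    rw [h5, t0.2.1, t.2.1] at h6
    exact h6.symm
  · intro h
    exact absurd (Finset.mem_univ _) h

/-- a rational relation from the relations over `ℂ` -/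
lemma descend {f m : ℕ} (hf : 0 < f) (hm : 0 < m) {H : Matrix ι ι ℤ} {L : V → ι → ℤ}
    {M : V → T → ι → ℤ}
    (key : ∀ g, g ∣ f → ∀ z : ℂ, IsPrimitiveRoot z g → ∃ b : T → ℂ, ∀ v i,
      (cr ℂ (L v) ᵥ* DD f m H z) i = ∑ s, b s * (M v s i : ℂ)) :
    ∃ (m' : ℤ) (c : T → ℤ), m' ≠ 0 ∧ ∀ v i, m' * L v i = ∑ s, c s * M v s i := by
  set ξ : ℂ := Complex.exp (2 * Real.pi * Complex.I / f) with hξ
  have hξp : IsPrimitiveRoot ξ f := Complex.isPrimitiveRoot_exp f hf.ne'
  have hk : ∀ i : ℕ, ∃ b : T → ℂ, ∀ v k,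
      (cr ℂ (L v) ᵥ* DD f m H (ξ ^ i)) k = ∑ s, b s * (M v s k : ℂ) := by
    intro i
    refine key (orderOf (ξ ^ i)) ?_ (ξ ^ i) (IsPrimitiveRoot.orderOf _)
    apply orderOf_dvd_of_pow_eq_one
    rw [← pow_mul, mul_comm, pow_mul, hξp.pow_eq_one, one_pow]
  choose b hb using hk
  set d : ℂ := (f : ℂ) * (m : ℂ) ^ (f - 1) with hd
  have hd0 : d ≠ 0 := by
    have h1 : (f : ℂ) ≠ 0 := by exact_mod_cast hf.ne'
    have h2 : (m : ℂ) ≠ 0 := by exact_mod_cast hm.ne'
    exact mul_ne_zero h1 (pow_ne_zero _ h2)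
  set a : T → ℂ := fun s => d⁻¹ * ∑ i ∈ range f, ξ ^ i * b i s with ha
  have hrel : ∀ v k, (L v k : ℂ) = ∑ s, a s * (M v s k : ℂ) := by
    intro v k
    have h1 : cr ℂ (L v) ᵥ* (∑ i ∈ range f, ξ ^ i • DD f m H (ξ ^ i)) = d • cr ℂ (L v) := by
      rw [sum_DD hf H hξp, Matrix.vecMul_smul, Matrix.vecMul_one]
    have h2 := congrFun h1 k
    rw [Matrix.vecMul_sum, Finset.sum_apply, Pi.smul_apply, smul_eq_mul] at h2
    have h3 : ∀ i ∈ range f, (cr ℂ (L v) ᵥ* (ξ ^ i • DD f m H (ξ ^ i))) k =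
        ∑ s, ξ ^ i * b i s * (M v s k : ℂ) := by
      intro i _
      rw [Matrix.vecMul_smul, Pi.smul_apply, smul_eq_mul, hb, Finset.mul_sum]
      exact Finset.sum_congr rfl fun s _ => by ring
    rw [Finset.sum_congr rfl h3, Finset.sum_comm] at h2
    have h4 : (L v k : ℂ) = d⁻¹ * (d * cr ℂ (L v) k) := by
      rw [← mul_assoc, inv_mul_cancel₀ hd0, one_mul]
      rfl
    rw [h4, ← h2, Finset.mul_sum]
    refine Finset.sum_congr rfl fun s _ => ?_
    rw [ha]
    simp only
    rw [← Finset.sum_mul]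
    ring
  obtain ⟨lam, hlam⟩ := LinearMap.exists_leftInverse_of_injective (Algebra.linearMap ℚ ℂ)
    (LinearMap.ker_eq_bot.2 (algebraMap ℚ ℂ).injective)
  have hl : ∀ q : ℚ, lam (q : ℂ) = q := by
    intro q
    have := LinearMap.congr_fun hlam q
    simpa using this
  have hq : ∀ v k, (L v k : ℚ) = ∑ s, lam (a s) * (M v s k : ℚ) := by
    intro v k
    have h1 : lam ((L v k : ℚ) : ℂ) = (L v k : ℚ) := hl _
    rw [← h1]
    have h2 : (((L v k : ℤ) : ℚ) : ℂ) = ∑ s, (M v s k : ℚ) • a s := by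
      rw [show (((L v k : ℤ) : ℚ) : ℂ) = (L v k : ℂ) by push_cast; rfl, hrel v k]
      refine Finset.sum_congr rfl fun s _ => ?_
      rw [Rat.smul_def]
      push_cast
      ring
    rw [h2, map_sum]
    refine Finset.sum_congr rfl fun s _ => ?_
    rw [map_smul, smul_eq_mul, mul_comm]
  obtain ⟨D, hD⟩ := IsLocalization.exist_integer_multiples_of_finite (nonZeroDivisors ℤ)
    (fun s : T => lam (a s))
  choose c hc using hD
  refine ⟨D, c, nonZeroDivisors.coe_ne_zero D, fun v k => ?_⟩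
  have h5 : ((((D : ℤ) * L v k : ℤ)) : ℚ) = ((∑ s, c s * M v s k : ℤ) : ℚ) := by
    push_cast
    rw [hq v k, Finset.mul_sum]
    refine Finset.sum_congr rfl fun s _ => ?_
    have := hc s
    simp only [eq_intCast, zsmul_eq_mul] at this
    rw [this]
    ring
  exact_mod_cast h5

end rel

theorem main : S_BadC → S_TBad := by
  intro hBad ι V T _ _ _ _ Vs f m H p L M hf hm hH hpM hcard hind hrel
  classical
  obtain ⟨rep, hrep1, hrep2⟩ := exists_rep p
  by_contra hcon
  push Not at hcon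
  apply hrel
  refine descend hf hm (H := H) ?_
  intro g hg z hz
  have hg0 : 0 < g := Nat.pos_of_dvd_of_pos hg hf
  have : NeZero g := ⟨hg0.ne'⟩
  obtain ⟨C, _, _, _⟩ := exists_cyc g
  have hζ := IsCyclotomicExtension.zeta_spec g ℚ C
  have hζi := hζ.toInteger_isPrimitiveRoot
  have hrelC : ∃ (m' : 𝓞 C) (c : TG p rep g → 𝓞 C), m' ≠ 0 ∧
      ∀ v i, m' * (cr (𝓞 C) (L v) ᵥ* DD f m H hζ.toInteger) i =
        ∑ s, c s * (cr (𝓞 C) (M v s.1) ᵥ* DD f m H hζ.toInteger) i := by
    by_contra hno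
    obtain ⟨r0, hr0⟩ := hBad C ι V (TG p rep g) Vs
      (fun v => cr (𝓞 C) (L v) ᵥ* DD f m H hζ.toInteger)
      (fun v s => cr (𝓞 C) (M v s.1) ᵥ* DD f m H hζ.toInteger)
      (lt_of_le_of_lt (card_TG p rep g) hcard)
      (fun n hn h => indep_TG hf hm hg0 hrep2 hpM hind hζi n hn h) hno
    obtain ⟨r, hr, hr1, ω, hω, hlt⟩ := hcon g hg (max r0 (max m f))
    have hr00 : r0 < r := lt_of_le_of_lt (le_max_left _ _) hr1
    have hrm : m < r := lt_of_le_of_lt (le_trans (le_max_left _ _) (le_max_right _ _)) hr1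
    have hrf : f < r := lt_of_le_of_lt (le_trans (le_max_right _ _) (le_max_right _ _)) hr1
    have : Fact r.Prime := ⟨hr⟩
    have hωp : IsPrimitiveRoot ω g := by
      rw [← hω]
      exact IsPrimitiveRoot.orderOf ω
    obtain ⟨π, hπ⟩ := exists_hom g hζ hωp
    have hcnt := hr0 r hr hr00 π
    have hm0 : (m : ZMod r) ≠ 0 := by
      rw [Ne, ZMod.natCast_eq_zero_iff]
      intro h
      exact absurd (Nat.le_of_dvd hm h) (by omega)
    have hf0 : (f : ZMod r) ≠ 0 := by
      rw [Ne, ZMod.natCast_eq_zero_iff]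
      intro h
      exact absurd (Nat.le_of_dvd hf h) (by omega)
    have hω0 : ω ≠ 0 := by
      rintro rfl
      have := hωp.pow_eq_one
      rw [zero_pow hg0.ne'] at this
      exact zero_ne_one this
    have hωf : ω ^ f = 1 := (hωp.pow_eq_one_iff_dvd f).2 hg
    have hEig : ∀ x : ι → ZMod r, EigV m H ω x ↔ HR (ZMod r) H *ᵥ x = ((m : ZMod r) * ω) • x := by
      intro x
      constructor
      · intro h
        funext i
        exact (h i).symm
      · intro h i
        exact (congrFun h i).symm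
    refine absurd ?_ (not_le.2 hlt)
    refine count (F := ZMod r) (DD f m H ω) {x | EigV m H ω x} _ _ ?_ (fun x hx => hx.2) ?_
      (by rw [ZMod.card]; exact hcnt)
    · intro x
      rw [Set.mem_ofPred_eq, hEig]
      constructor
      · intro h
        have h1 := DD_eig (f := f) h
        set d := (f : ZMod r) * ((m : ZMod r) * ω) ^ (f - 1) with hd
        have hd0 : d ≠ 0 := mul_ne_zero hf0 (pow_ne_zero _ (mul_ne_zero hm0 hω0))
        refine ⟨d⁻¹ • x, ?_⟩
        rw [Matrix.mulVec_smul, h1, smul_smul, inv_mul_cancel₀ hd0, one_smul]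
      · rintro ⟨y, rfl⟩
        rw [Matrix.mulVec_mulVec, HR_mul_DD hH hωf, Matrix.smul_mulVec]
    · rintro y ⟨⟨a, ha⟩, hy⟩
      rw [hEig] at hy
      obtain ⟨b, hb⟩ := sum_rep hrep1 hrep2 hω a
      refine ⟨b, fun v => ?_⟩
      have e1 : ∀ w : ι → ℤ, ∑ i, π ((cr (𝓞 C) w ᵥ* DD f m H hζ.toInteger) i) * y i =
          ∑ i, (w i : ZMod r) * (DD f m H ω *ᵥ y) i := by
        intro w
        simp only [map_row, hπ]
        exact (Matrix.dotProduct_mulVec (cr (ZMod r) w) (DD f m H ω) y).symm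
      rw [e1, ha v]
      simp only [e1]
      refine hb (fun s => ∑ i, (M v s i : ZMod r) * (DD f m H ω *ᵥ y) i) ?_
      intro s
      have h3 : cr (ZMod r) (M v s) ᵥ* HR (ZMod r) H = (m : ZMod r) • cr (ZMod r) (M v (p s)) :=
        hrow (hpM v) s
      have h4 : (cr (ZMod r) (M v s) ᵥ* HR (ZMod r) H) ⬝ᵥ (DD f m H ω *ᵥ y) =
          cr (ZMod r) (M v s) ⬝ᵥ (HR (ZMod r) H *ᵥ (DD f m H ω *ᵥ y)) :=
        (Matrix.dotProduct_mulVec _ _ _).symm
      rw [h3, hy, smul_dotProduct, dotProduct_smul, smul_eq_mul, smul_eq_mul, mul_assoc] at h4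
      exact mul_left_cancel₀ hm0 h4
  obtain ⟨m', c, hm', hc⟩ := hrelC
  obtain ⟨π, hπ⟩ := exists_hom g hζ hz
  have hπm : π m' ≠ 0 := by
    rw [Ne, map_eq_zero_iff π (hom_inj π)]
    exact hm'
  have hW : ∀ v s, cr ℂ (M v s) ᵥ* HR ℂ H = (m : ℂ) • cr ℂ (M v (p s)) := fun v => hrow (hpM v)
  refine ⟨fun s => (π m')⁻¹ * ∑ t : TG p rep g, ∑ j ∈ range f,
    if (p ^ j) t.1 = s then π (c t) * ((m : ℂ) ^ (f - 1) * z ^ (f - 1 - j)) else 0, fun v i => ?_⟩
  have h1 := congrArg π (hc v i)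
  rw [map_mul, map_sum, map_row, hπ] at h1
  simp only [map_mul, map_row, hπ] at h1
  rw [expand (hW v) z (fun t : TG p rep g => t.1) (fun t => π (c t)) i] at h1
  rw [← mul_right_inj' hπm, h1, Finset.mul_sum]
  refine Finset.sum_congr rfl fun s _ => ?_
  rw [← mul_assoc, ← mul_assoc, mul_inv_cancel₀ hπm, one_mul]
  rfl

end Pool.Agent.H168.TH.TBad
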